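import Pool.Agent.Y203.QC.Main

set_option autoImplicit false

open Pool.Agent.QA

namespace Pool.Agent.Results.MP_7d4c8f_an.QuotientArc

/-- There are a flat torus `M`, a `C^∞` time-periodic Tonelli Lagrangian `L` on `TM × 𝕋` and a
class `c`, `a = α(c)`, for which the quotient Aubry set `(X, dist)` of the class `c` with the
metric induced by `ρ_c` contains an arc (an injective continuous image of `[0, 1]`); in particular
it contains a connected subset with more than one point. -/
theorem result : ∃ (ι : Type) (_ : Fintype ι) (P : ℝ) (_ : Fact (0 < P)) (L : Phase P ι → ℝ)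
    (Φ : ℝ → Phase P ι → Phase P ι) (c : ι → ℝ) (a : ℝ),
    IsTonelli P L ∧ IsELFlow P L Φ ∧ IsAlpha P L Φ c a ∧
    ∃ (X : Type) (_ : MetricSpace X) (π : AubrySet P L c a → X),
      Function.Surjective π ∧
      (∀ x y : AubrySet P L c a, ((dist (π x) (π y) : ℝ) : EReal) =
        barrier P L c a x y + barrier P L c a y x) ∧
      (∃ γ : Set.Icc (0 : ℝ) 1 → X, Continuous γ ∧ Function.Injective γ) ∧
      ∃ S : Set X, IsConnected S ∧ S.Nontrivial :=
  Pool.Agent.Y203.QC.result_aux

end Pool.Agent.Results.MP_7d4c8f_an.QuotientArc
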